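import Pool.Agent.Y194.CMU.Main
import Pool.Agent.W287.HK.Basic
import Pool.Agent.W571.HK.Cls
import Pool.Agent.W53.HK.Fp
import Pool.Agent.W366.HK.Fpr
import Pool.Agent.W585.HK.LAT
import Pool.Agent.W692.HK.Ker
import Pool.Agent.W584.HK.CNT
import Pool.Agent.W856.HK.Dec
import Pool.Agent.W636.HK.Gauss
import Pool.Agent.W348.HK.Pois
import Pool.Agent.W29.HK.Prod

/-!
# The proportion of nonzero central values of the twists of Hecke characters

Let `K` be an imaginary quadratic field of class number one with ring of integers `R`, and let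
`ψ_1, …, ψ_r` be Hecke characters of `K` of infinity type `(1, 0)` and conductors `f_i` with
`L(ψ_i, 1) ≠ 0`.  If `ψ_i(I^c)` is the complex conjugate of `ψ_i(I)` and `χ` is an anticyclotomic
character (`χ(I^c) = χ(I)⁻¹`, a ring class character), `ψ_i χ` is the Hecke character of a conjugate
self-dual automorphic representation of `GL_1` over `K` of motivic weight `-1` (after the shift of `s` by
`1`), and the central value is `L(ψ_i χ, 1)`.

The theorem: there is one positive integer `D` such that for all odd primes `l` prime to the conductors,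
all places `v` above `l` where the curves `y² = 4x³ - g₂x - g₃` of the lattices `Ω_i R` have good reduction,
all finite sets `U` of primes of `K` and every finite group `H` of ray class characters `χ` of `l`-power
order whose conductors are products of different primes of `U`, at least `#H / l^w` of the `χ` in `H`
satisfy `L(ψ_i χ, 1) ≠ 0` for all `i`, with `w = v_l(D b_1 ⋯ b_r)` for any positive integers `b_i`
divisible at `v` by `∏_{q ∈ U} (ψ_i(q) - 1)`.  The exponent `w` does not depend on the group `H`, in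
particular not on the orders of the characters.  More generally `χ` is replaced by several characters
`φ_t(h)` depending multiplicatively on an element `h` of a finite abelian `l`-group.  If `l` does not
divide `D` and the `ψ_i(q) - 1` are units at `v`, all values are nonzero.

The proof: `conj L(ψ χ, 1)` is a period times `∑ χ⁻¹(x) G(x)` with a function `G` on `R/c` built from
values of elliptic functions at torsion points.  The sum of its values at the classes prime to `c` is
`∏ (ψ(q) - 1)` times the value for `χ = 1`.  All `G(x)` are algebraic and, up to a bounded denominator,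
integral at `v`.  The proportion comes from an uncertainty principle: for a finite abelian `l`-group `H`
and `y = ∑ y_x e_x` with `e_x` in the dual group, integral at `v`, with `∑ y_x ≠ 0` of valuation at most
that of `l^w`, at least `#H / l^w` of the elements `h` of `H` satisfy `∑ y_x e_x(h) ≠ 0`.
-/

set_option autoImplicit false

open Complex

namespace Pool.Agent.Results.MP_7c08ba_nt.UniformProportionCM

/-- The norm `N(I)` of an ideal (`0` for the zero ideal, whose residue ring is infinite). -/
noncomputable def norm {R : Subring ℂ} (I : Ideal R) : ℝ := (Nat.card (R ⧸ I) : ℝ)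

/-- `ψ`, a function on the ideals of `R`, is a primitive Hecke character of conductor `f` and infinity
type `(n, 0)`: it is multiplicative, vanishes exactly at the zero ideal and the ideals not prime to
`f`, satisfies `ψ((α)) = α ^ n` for `α ≡ 1 mod f`, and this fails for every strictly larger ideal `f'`
in place of `f`. -/
structure IsHecke {R : Subring ℂ} (n : ℕ) (f : Ideal R) (ψ : Ideal R → ℂ) : Prop where
  ne_bot : f ≠ ⊥
  mul : ∀ I J : Ideal R, ψ (I * J) = ψ I * ψ J
  eq_zero : ∀ I : Ideal R, ψ I = 0 ↔ (I = ⊥ ∨ ¬ IsCoprime I f)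
  principal : ∀ α : R, α ≠ 0 → α - 1 ∈ f → ψ (Ideal.span {α}) = (α : ℂ) ^ n
  primitive : ∀ f' : Ideal R, f < f' → ∃ α : R, α ≠ 0 ∧ α - 1 ∈ f' ∧ IsCoprime (Ideal.span {α}) f ∧
    ψ (Ideal.span {α}) ≠ (α : ℂ) ^ n

theorem isHecke_iff {R : Subring ℂ} (n : ℕ) (f : Ideal R) (ψ : Ideal R → ℂ) :
    IsHecke n f ψ ↔ Pool.Agent.W192.HK.HC n f ψ :=
  ⟨fun h => ⟨h.ne_bot, h.mul, h.eq_zero, h.principal, h.primitive⟩,
    fun h => ⟨h.ne, h.mul, h.zero, h.princ, h.prim⟩⟩

/-- Families `(χ_q)` of characters of the rings `R/q`. -/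
def Family (R : Subring ℂ) : Type := (q : Ideal R) → MulChar (R ⧸ q) ℂ

/-- The families form a group under pointwise multiplication. -/
noncomputable instance familyGroup (R : Subring ℂ) : CommGroup (Family R) :=
  @Pi.commGroup (Ideal R) (fun q => MulChar (R ⧸ q) ℂ) fun _ => MulChar.commGroup

/-- The component `χ_q` is not the trivial character. -/
def Ramified {R : Subring ℂ} (χ : Family R) (q : Ideal R) : Prop := χ q ≠ 1

/-- The value `χ_q(x mod q)`. -/
noncomputable def localValue {R : Subring ℂ} (χ : Family R) (q : Ideal R) (x : R) : ℂ :=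
  χ q (Ideal.Quotient.mk q x)

/-- The family `χ` is a ray class character of squarefree conductor prime to `f`: finitely many
components are nontrivial, they belong to nonzero maximal ideals `q` prime to `f`, and the product of
the `χ_q` is trivial on the units of `R`. -/
structure IsRayClass {R : Subring ℂ} (f : Ideal R) (χ : Family R) : Prop where
  finite : {q | Ramified χ q}.Finite
  maximal : ∀ q, Ramified χ q → q.IsMaximal ∧ q ≠ ⊥ ∧ IsCoprime f q
  units : ∀ u : R, IsUnit u → ∏ᶠ (q : Ideal R) (_ : Ramified χ q), localValue χ q u = 1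

/-- The value of the ray class character `χ` at the ideal `I = (α)`: the product of the `χ_q(α)` over
all `q` with `χ_q ≠ 1` (so it is the primitive character). -/
noncomputable def value {R : Subring ℂ} [IsPrincipalIdealRing R] (χ : Family R) (I : Ideal R) : ℂ :=
  ∏ᶠ (q : Ideal R) (_ : Ramified χ q), localValue χ q (Submodule.IsPrincipal.generator I)

/-- `F` is entire and `F(s) = ∑ ψ(I) χ(I) N(I)^(-s)` for `Re s > 3/2`. -/
def IsLFunction {R : Subring ℂ} [IsPrincipalIdealRing R] (ψ : Ideal R → ℂ) (χ : Family R)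
    (F : ℂ → ℂ) : Prop :=
  Differentiable ℂ F ∧ ∀ s : ℂ, 3 / 2 < s.re →
    HasSum (fun I : Ideal R => ψ I * value χ I * (norm I : ℂ) ^ (-s)) (F s)

/-- `R = ℤ + ℤ ω` for some `ω` in the upper half plane. -/
def IsQuadratic (R : Subring ℂ) : Prop :=
  ∃ ω : ℂ, 0 < ω.im ∧ ∀ z : ℂ, z ∈ R ↔ ∃ x y : ℤ, z = x + y * ω

/-- `P` generates the lattice `Ω R`, `Ω ≠ 0`, and its invariants `g₂`, `g₃` are algebraic numbers. -/
def IsLattice (R : Subring ℂ) (P : PeriodPair) (Ω : ℂ) : Prop :=
  Ω ≠ 0 ∧ (∀ z : ℂ, z ∈ P.lattice ↔ ∃ x : R, z = Ω * x) ∧ IsAlgebraic ℚ P.g₂ ∧ IsAlgebraic ℚ P.g₃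

/-- The curve `y² = 4 x³ - g₂ x - g₃` of the lattice has `v`-integral coefficients and good reduction
at `v` (with unit discriminant). -/
def Good {Γ : Type} [LinearOrderedCommGroupWithZero Γ] (v : Valuation ℂ Γ) (P : PeriodPair) : Prop :=
  v P.g₂ ≤ 1 ∧ v P.g₃ ≤ 1 ∧ v (P.g₂ ^ 3 - 27 * P.g₃ ^ 2) = 1

/-- `χ` is a ray class character of squarefree conductor, prime to all `f_i` and composed of primes
of `U`. -/
def Supported {R : Subring ℂ} {r : ℕ} (f : Fin r → Ideal R) (U : Finset (Ideal R)) (χ : Family R) :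
    Prop :=
  (∀ i, IsRayClass (f i) χ) ∧ ∀ q, Ramified χ q → q ∈ U

/-- The positive integer `b` is divisible at `v` by `∏_{q ∈ U} (ψ(q) - 1)`. -/
def DividesAt {R : Subring ℂ} {Γ : Type} [LinearOrderedCommGroupWithZero Γ] (v : Valuation ℂ Γ)
    (ψ : Ideal R → ℂ) (U : Finset (Ideal R)) (b : ℕ) : Prop :=
  0 < b ∧ v (b : ℂ) ≤ v (∏ q ∈ U, (ψ q - 1))

/-- The number of the elements with the property `N`. -/
noncomputable def count {H : Type} (N : H → Prop) : ℕ := Nat.card {h : H // N h}

theorem isRayClass_iff {R : Subring ℂ} (f : Ideal R) (χ : Family R) :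
    IsRayClass f χ ↔ Pool.Agent.Y683.CM.RayF f χ :=
  ⟨fun h => ⟨h.finite, h.maximal, h.units⟩, fun h => ⟨h.fin, h.max, h.unit⟩⟩

/-- **Main theorem.** Let `R` be the ring of integers of an imaginary quadratic field, a principal
ideal ring, and `ψ_1, …, ψ_r` primitive Hecke characters of conductors `f_i` and infinity type `(1, 0)`
on the ideals of `R`.  There are entire functions `L i χ`, the `L`-functions of the `ψ_i χ`, for the ray
class characters `χ` of squarefree conductor prime to `f_i`; and if `L i 1 1 ≠ 0` for all `i`, the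
following holds.  Let `Ω_i R` be lattices with algebraic invariants `g₂`, `g₃`.  There is a positive
integer `D` such that for all odd primes `l` that do not divide the `N(f_i)`, all valuations `v` of `ℂ`
with `v(l) < 1` at which the lattices have good reduction, all finite sets `U` of ideals, all positive
integers `b_i` divisible at `v` by `∏_{q ∈ U} (ψ_i(q) - 1)`, all finite commutative `l`-groups `H` and all
finite families of homomorphisms `φ_t`, `t` in `T`, from `H` to the group of families of characters whose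
values are ray class characters of squarefree conductors prime to the `f_i` and composed of primes of
`U`: at least `#H / l^w` of the elements `h` of `H` satisfy `L i (φ_t h) 1 ≠ 0` for all `i` and all `t`,
with `w = #T · ord_l(D b_1 ⋯ b_r)`. -/
theorem result (R : Subring ℂ) [IsPrincipalIdealRing R] (hR : IsQuadratic R) (r : ℕ)
    (f : Fin r → Ideal R) (ψ : Fin r → Ideal R → ℂ) (hψ : ∀ i, IsHecke 1 (f i) (ψ i)) :
    ∃ L : Fin r → Family R → ℂ → ℂ,
      (∀ (i : Fin r) (χ : Family R), IsRayClass (f i) χ → IsLFunction (ψ i) χ (L i χ)) ∧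
      ((∀ i, L i 1 1 ≠ 0) →
        ∀ (P : Fin r → PeriodPair) (Ω : Fin r → ℂ), (∀ i, IsLattice R (P i) (Ω i)) →
        ∃ D : ℕ, 0 < D ∧ ∀ l : ℕ, l.Prime → l ≠ 2 → (∀ i, ¬ l ∣ Nat.card (R ⧸ f i)) →
          ∀ (Γ : Type) [LinearOrderedCommGroupWithZero Γ] (v : Valuation ℂ Γ), v (l : ℂ) < 1 →
          (∀ i, Good v (P i)) →
          ∀ (U : Finset (Ideal R)) (b : Fin r → ℕ), (∀ i, DividesAt v (ψ i) U (b i)) →
          ∀ (H T : Type) [CommGroup H] [Finite H] [Fintype T] (φ : T → H →* Family R),
          IsPGroup l H → (∀ t h, Supported f U (φ t h)) →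
          Nat.card H ≤ l ^ (Fintype.card T * padicValNat l (D * ∏ i, b i)) *
            count (fun h : H => ∀ t i, L i (φ t h) 1 ≠ 0)) := by
  classical
  obtain ⟨ω, hω, hR⟩ := hR
  have hbasic := Pool.Agent.W287.HK.h_basic
  have hcls := Pool.Agent.W571.HK.h_cls hbasic
  have hfp := Pool.Agent.W53.HK.h_fp hbasic hcls
  have hfpr := Pool.Agent.W366.HK.h_fpr hbasic hcls
  have hlat := Pool.Agent.W585.HK.h_lat hbasic
  have hker := Pool.Agent.W692.HK.h_ker hbasic hcls hfpr
  have hcnt := Pool.Agent.W584.HK.h_cnt hbasic hcls hfpr hlat hker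
  have hdec := Pool.Agent.W856.HK.h_dec hbasic
  have hgauss := Pool.Agent.W636.HK.h_gauss hbasic hfp
  have hpois := Pool.Agent.W348.HK.h_pois hbasic
  have htheta := Pool.Agent.TH936.HK.h_theta hbasic hfp hdec hgauss hpois hcnt
  have hafe := Pool.Agent.TH936.HK.h_afe hbasic hfp hcnt hgauss htheta
  have hprod := Pool.Agent.W29.HK.h_prod hbasic hfp
  have hx : Pool.Agent.Y683.CM.Facts := ⟨hbasic, hfp, hcnt, hdec, hafe, hprod⟩
  have hded : IsDedekindDomain R := inferInstance
  have hQ : Pool.Agent.W192.HK.QR R ω := ⟨hω, hR, hded⟩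
  choose f0 hf0 using fun i => (⟨_, (Submodule.IsPrincipal.span_singleton_generator (f i)).symm⟩ :
    ∃ f0 : R, f i = Ideal.span {f0})
  obtain rfl : f = fun i => Pool.Agent.W192.HK.sp (f0 i) := funext hf0
  have hψ' : ∀ i, Pool.Agent.W192.HK.HC 1 (Pool.Agent.W192.HK.sp (f0 i)) (ψ i) := fun i =>
    (isHecke_iff _ _ _).1 (hψ i)
  have hfin : ∀ i, Finite (R ⧸ Pool.Agent.W192.HK.sp (f0 i)) := fun i =>
    (hbasic R ω hQ).1 _ (hψ' i).ne
  refine ⟨fun i χ => Pool.Agent.Y683.CM.Lf (ψ i) χ, fun i χ hχ => ?_, fun hne P Ω hP => ?_⟩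
  · have : Fintype (R ⧸ Pool.Agent.W192.HK.sp (f0 i)) := Fintype.ofFinite _
    obtain ⟨h1, h2, -⟩ := Pool.Agent.Y683.CM.lf_val hx hQ (hψ' i) ((isRayClass_iff _ _).1 hχ)
    exact ⟨h1, h2⟩
  · obtain ⟨D, hD, h1⟩ := Pool.Agent.Y194.CMU.main_prop hx hQ hψ' hne (P := P) (Ω := Ω)
      (fun i => ⟨(hP i).1, (hP i).2.1⟩) (fun i => (hP i).2.2.1) (fun i => (hP i).2.2.2)
    refine ⟨D, hD, ?_⟩
    intro l hl hl2 hlf Γ _ v hv hG U b hb H T _ _ _ φ hH hφ
    exact h1 l hl hl2 hlf Γ v hv (fun i => (hG i).1) (fun i => (hG i).2.1) (fun i => (hG i).2.2)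
      H T φ hH (fun t h i => (isRayClass_iff _ _).1 ((hφ t h).1 i)) U
      (fun t h q hq => (hφ t h).2 q hq) b (fun i => (hb i).1) fun i => (hb i).2

end Pool.Agent.Results.MP_7c08ba_nt.UniformProportionCM
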